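import Pool.Agent.W973.IP.Defs

set_option autoImplicit false

namespace Pool.Agent.W371.IP

open Pool.Agent.W973.IP MvPolynomial

theorem mix {m a a' r r' : ℕ} (hr : r < m) (hr' : r' < m) (h : a * m + r = a' * m + r') :
    a = a' ∧ r = r' := by
  have hm : 0 < m := by omega
  have h1 : (a * m + r) / m = a := by
    rw [mul_comm, Nat.mul_add_div hm, Nat.div_eq_of_lt hr, add_zero]
  have h2 : (a' * m + r') / m = a' := by
    rw [mul_comm, Nat.mul_add_div hm, Nat.div_eq_of_lt hr', add_zero]
  have h3 : a = a' := by rw [← h1, ← h2, h]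
  subst h3
  exact ⟨rfl, by omega⟩

/-- the first digit -/
def oi {n : ℕ} (o : Option (Fin n)) : ℕ := o.elim 0 fun j => (j : ℕ) + 1

theorem oi_lt {n : ℕ} (o : Option (Fin n)) : oi o < n + 1 := by
  cases o with
  | none => exact Nat.succ_pos n
  | some j =>
    change (j : ℕ) + 1 < n + 1
    omega

theorem oi_inj {n : ℕ} {o o' : Option (Fin n)} (h : oi o = oi o') : o = o' := by
  cases o with
  | none =>
    cases o' with
    | none => rfl
    | some j' =>
      change 0 = (j' : ℕ) + 1 at h
      omega
  | some j =>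
    cases o' with
    | none =>
      change (j : ℕ) + 1 = 0 at h
      omega
    | some j' =>
      change (j : ℕ) + 1 = (j' : ℕ) + 1 at h
      congr 1
      apply Fin.ext
      omega

theorem idx_inr {n : ℕ} (o : Option (Fin n)) (s : Fin (MM n)) (d : Fin (2 * (n + 1))) :
    idx (Sum.inr (o, s, d) : Ft n) =
      n + ((oi o * MM n + (s : ℕ)) * (2 * (n + 1)) + (d : ℕ)) := by
  unfold idx oi
  ring

theorem bound {a b m k r s : ℕ} (ha : a < b) (hs : s < m) (hr : r < k) :
    (a * m + s) * k + r < b * (m * k) := by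
  have h1 : a * m + s + 1 ≤ b * m := by
    calc a * m + s + 1 ≤ a * m + m := by omega
      _ = (a + 1) * m := by ring
      _ ≤ b * m := Nat.mul_le_mul_right m ha
  calc (a * m + s) * k + r < (a * m + s) * k + k := by omega
    _ = (a * m + s + 1) * k := by ring
    _ ≤ (b * m) * k := Nat.mul_le_mul_right k h1
    _ = b * (m * k) := by ring

theorem idxT : S_IDX := by
  intro n
  refine ⟨?_, ?_, ?_⟩
  · rintro (l | ⟨o, s, d⟩) (l' | ⟨o', s', d'⟩) h
    · have h1 : (l : ℕ) = (l' : ℕ) := h
      congr 1
      exact Fin.ext h1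
    · rw [idx_inr] at h
      have h1 : idx (Sum.inl l : Ft n) = (l : ℕ) := rfl
      rw [h1] at h
      have := l.2
      omega
    · rw [idx_inr] at h
      have h1 : idx (Sum.inl l' : Ft n) = (l' : ℕ) := rfl
      rw [h1] at h
      have := l'.2
      omega
    · rw [idx_inr, idx_inr] at h
      have h1 := Nat.add_left_cancel h
      obtain ⟨h2, h3⟩ := mix d.2 d'.2 h1
      obtain ⟨h4, h5⟩ := mix s.2 s'.2 h2
      have e1 : o = o' := oi_inj h4
      have e2 : s = s' := Fin.ext h5
      have e3 : d = d' := Fin.ext h3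
      rw [e1, e2, e3]
  · rintro (l | ⟨o, s, d⟩)
    · have h1 : idx (Sum.inl l : Ft n) = (l : ℕ) := rfl
      rw [h1]
      unfold fa
      have := l.2
      omega
    · rw [idx_inr]
      unfold fa
      have := bound (oi_lt o) s.2 d.2
      omega
  · unfold fa
    rw [Fintype.card_sum, Fintype.card_prod, Fintype.card_prod, Fintype.card_option,
      Fintype.card_fin, Fintype.card_fin, Fintype.card_fin]

end Pool.Agent.W371.IP
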